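import Pool.Agent.N220.CF.Gen
import Pool.Agent.N220.CF.Li

/-!
# Sign patterns of the Liouville function at positions near linear forms in good approximations of almost every point

Let `𝒜` be ANY set of natural numbers and `k ≥ 1`. For almost every point `α` of `R^k`, all invertible integral matrices `M` of size
`k + 1`, all integral vectors `c` and all but finitely many integral vectors `(q, p_1, ..., p_k)`, `q ≥ 1`, with
`|q α_i - p_i| ≤ b q^(-1/k)` for all `i`, EVERY vector `v` of natural numbers at a distance of at most `log ^ W q` (in each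
coordinate) from `M (q, p) + c` has the property: each of the `2 ^ (k + 1)` sign patterns of `λ(x + v_0), ..., λ(x + v_k)` has the
frequency `2 ^ -(k + 1)` among the `x` of `𝒜`, in all intervals up to `B q` and all progressions of moduli up to `log ^ A q`, with
an error of at most `q / log ^ U q`. For `k = 1` this holds along the convergents of almost every real number.
-/

set_option autoImplicit false

namespace Pool.Agent.Results.MP_4fffd4_nt.ConvergentPositions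

open Finset Filter MeasureTheory
open Pool.Agent.N220.CF (Near conv vec)

/-- The Liouville function: `1` if the number of the prime factors, counted with multiplicity, is even, and `-1` otherwise. -/
def liouville (n : ℕ) : ℤ := (-1) ^ (n.primeFactorsList.length)

/-- The number of the `x` in the set `𝒜` with `a < x ≤ b`, `x ≡ r (mod l)`. -/
noncomputable def total (𝒜 : Set ℕ) (l r a b : ℕ) : ℕ := {x : ℕ | (a < x ∧ x ≤ b) ∧ x ≡ r [MOD l] ∧ x ∈ 𝒜}.ncard

/-- The number of the `x` in the set `𝒜` with `a < x ≤ b`, `x ≡ r (mod l)` and `λ(x + v_i) = ε_i` for all `i`. -/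
noncomputable def occurrences (𝒜 : Set ℕ) {s : ℕ} (v : Fin s → ℕ) (l r a b : ℕ) (ε : Fin s → ℤ) : ℕ :=
  {x : ℕ | ((a < x ∧ x ≤ b) ∧ x ≡ r [MOD l] ∧ x ∈ 𝒜) ∧ ∀ i, liouville (x + v i) = ε i}.ncard

/-- For all moduli `1 ≤ l ≤ log ^ A q`, all residues `r`, all intervals `(a, b]` with `b ≤ B q` and all sign patterns `ε` the number
of the occurrences is `total / 2 ^ s`, with an error of at most `q / log ^ U q`. -/
def Equidistributed (𝒜 : Set ℕ) (A B U q : ℕ) {s : ℕ} (v : Fin s → ℕ) : Prop :=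
  ∀ l r a b : ℕ, 1 ≤ l → (l : ℝ) ≤ Real.log q ^ A → a ≤ b → b ≤ B * q → ∀ ε : Fin s → ℤ, (∀ i, ε i = 1 ∨ ε i = -1) →
    |(occurrences 𝒜 v l r a b ε : ℝ) - (total 𝒜 l r a b : ℝ) / 2 ^ s| ≤ q / Real.log q ^ U

/-- Equidistribution for all vectors `v` of natural numbers at a distance of at most `log ^ W q` in each coordinate from
`M (q, p_1, ..., p_k) + c`. Here `t = (p, q)`. -/
def Law (𝒜 : Set ℕ) {k : ℕ} (M : Matrix (Fin (k + 1)) (Fin (k + 1)) ℤ) (c : Fin (k + 1) → ℤ) (A B U W : ℕ)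
    (t : (Fin k → ℤ) × ℕ) : Prop :=
  ∀ v : Fin (k + 1) → ℕ, (∀ i, |(v i : ℝ) - (((M.mulVec (vec t) i + c i : ℤ)) : ℝ)| ≤ Real.log t.2 ^ W) →
    Equidistributed 𝒜 A B U t.2 v

open Pool.Agent.N220.CF Pool.Agent.N220.CF.Li
open Pool.Agent.N699.PP (li)

lemma li_liouville (n : ℕ) : li n = ((liouville n : ℤ) : ℝ) := by
  unfold li liouville
  push_cast
  rfl

/-- the property of integral vectors -/
def P (𝒜 : Set ℕ) (k A U : ℕ) (B X : ℕ) (β : Fin (k + 1) → ℤ) : Prop :=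
  ∀ v : Fin (k + 1) → ℕ, (∀ i, (v i : ℤ) = β i) → GpA 𝒜 U X ⌊Real.log X ^ A⌋₊ (B * X) v

lemma gpa_mono (𝒜 : Set ℕ) {s U U' N K Y : ℕ} (hU : U ≤ U') (hN : 1 ≤ Real.log N) {v : Fin s → ℕ} (h : GpA 𝒜 U' N K Y v) :
    GpA 𝒜 U N K Y v := by
  intro q r a b h1 h2 h3 h4 h5 ε hε T hT
  refine (h q r a b h1 h2 h3 h4 h5 ε hε T hT).trans ?_
  exact div_le_div_of_nonneg_left (by positivity) (by positivity) (pow_le_pow_right₀ hN hU)

lemma met (𝒜 : Set ℕ) {k : ℕ} (hk : 1 ≤ k) (M : Matrix (Fin (k + 1)) (Fin (k + 1)) ℤ) (hM : M.det ≠ 0) (c : Fin (k + 1) → ℤ)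
    (A B U W : ℕ) : VectorsFinitelyMet k {t | ¬ Law 𝒜 M c A B U W t} := by
  have key := gen_dyadic hk M hM c (P 𝒜 k A (U + 1)) (fun B B' X β hB h v hv q r a b h1 h2 h3 h4 h5 =>
    h v hv q r a b h1 h2 h3 h4 (h5.trans (Nat.mul_le_mul_right _ hB))) (by
    intro B U' hU'
    obtain ⟨n1, h1⟩ := few_patterns A (B + 1) (U + 1 + (U' + 1)) (by omega) (k + 1) (by omega)
    obtain ⟨n2, h2⟩ := Pool.Agent.H373R2.T7.ev_L' ((2 * ((B + 1 : ℕ) : ℝ)) ^ (k + 1) + 1)
    refine ⟨n1 + n2 + 1, fun X hX F hF => ?_⟩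
    have hL := h2 X (by omega)
    have hp : (0 : ℝ) ≤ (2 * ((B + 1 : ℕ) : ℝ)) ^ (k + 1) := by positivity
    have hL1 : 1 ≤ Real.log (X : ℝ) := by linarith
    have hF' : ∀ β ∈ F, ∃ v : Fin (k + 1) → ℕ, (∀ i, (v i : ℤ) = β i) ∧ ¬ GpA 𝒜 (U + 1) X ⌊Real.log X ^ A⌋₊ (B * X) v := by
      intro β hβ
      have h3 := (hF β hβ).2
      unfold P at h3
      push Not at h3
      exact h3
    have hinj : Set.InjOn (fun β : Fin (k + 1) → ℤ => fun i => (β i).toNat) (F : Set (Fin (k + 1) → ℤ)) := by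
      intro β hβ β' hβ' h
      obtain ⟨v, hv, -⟩ := hF' β hβ
      obtain ⟨v', hv', -⟩ := hF' β' hβ'
      funext i
      have h3 := congrFun h i
      simp only at h3
      have h4 := hv i
      have h5 := hv' i
      omega
    rw [← card_image_of_injOn hinj]
    refine (h1 X (by omega) 𝒜 _ ?_).trans ?_
    · intro v hv
      rw [mem_image] at hv
      obtain ⟨β, hβ, rfl⟩ := hv
      obtain ⟨v, hv, hg⟩ := hF' β hβ
      have e : (fun i => (β i).toNat) = v := by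
        funext i
        have := hv i
        omega
      refine ⟨fun i => ?_, fun h => hg ?_⟩
      · have h3 := (hF β hβ).1 i
        have h4 := hv i
        have h5 : (v i : ℤ) ≤ (B : ℤ) * X := by
          rw [h4]
          exact (le_abs_self _).trans h3
        have h6 : v i ≤ B * X := by exact_mod_cast h5
        rw [e]
        exact h6.trans (Nat.mul_le_mul_right _ (by omega))
      · rw [e] at h
        have h3 := gpa_mono 𝒜 (U := U + 1) (U' := U + 1 + (U' + 1)) (by omega) hL1 h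
        intro q r a b g1 g2 g3 g4 g5
        exact h3 q r a b g1 g2 g3 g4 (g5.trans (Nat.mul_le_mul_right _ (by omega)))
    · have hX0 : (0 : ℝ) ≤ (X : ℝ) ^ (k + 1) := by positivity
      have h3 : (2 * ((B + 1 : ℕ) : ℝ)) ^ (k + 1) ≤ Real.log X ^ (U + 1 + 1) := by
        calc (2 * ((B + 1 : ℕ) : ℝ)) ^ (k + 1) ≤ Real.log X := by linarith
          _ = Real.log X ^ 1 := (pow_one _).symm
          _ ≤ _ := pow_le_pow_right₀ hL1 (by omega)
      rw [div_le_div_iff₀ (by positivity) (by positivity)]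
      calc (2 * ((B + 1 : ℕ) : ℝ)) ^ (k + 1) * (X : ℝ) ^ (k + 1) * Real.log X ^ U'
          ≤ Real.log X ^ (U + 1 + 1) * (X : ℝ) ^ (k + 1) * Real.log X ^ U' := by
            apply mul_le_mul_of_nonneg_right _ (by positivity)
            exact mul_le_mul_of_nonneg_right h3 hX0
        _ = (X : ℝ) ^ (k + 1) * Real.log X ^ (U + 1 + (U' + 1)) := by ring) B W
  obtain ⟨n1, h1⟩ := Pool.Agent.H373R2.T7.ev_L' 2
  refine key.large (n1 + 1) ?_
  intro t ht hlaw
  change ¬ Law 𝒜 M c A B U W t at hlaw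
  unfold Law at hlaw
  push Not at hlaw
  obtain ⟨v, hv, hE⟩ := hlaw
  refine ⟨fun i => (v i : ℤ), fun i => by
    have := hv i
    push_cast at this ⊢
    exact this, fun hP => hE ?_⟩
  have h2 := hP v fun _ => rfl
  have ht0 : t.2 ≠ 0 := by omega
  obtain ⟨q, hq⟩ : ∃ q, q = t.2 := ⟨_, rfl⟩
  obtain ⟨X, hX⟩ : ∃ X, X = 2 ^ (Nat.log 2 t.2 + 1) := ⟨_, rfl⟩
  have hX1 : q ≤ X := by
    rw [hq, hX]
    exact (Nat.lt_pow_succ_log_self one_lt_two _).le
  have hX2 : X ≤ 2 * q := by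
    rw [hq, hX, pow_succ, mul_comm]
    exact Nat.mul_le_mul_left 2 (Nat.pow_log_le_self 2 ht0)
  rw [← hX] at h2
  rw [← hq]
  have hLq := h1 q (by omega)
  have hq0 : (0 : ℝ) < q := by exact_mod_cast (by omega : 0 < q)
  have hLX : Real.log q ≤ Real.log X := Real.log_le_log hq0 (by exact_mod_cast hX1)
  intro l r a b hl1 hl hab hb ε hε
  have hlX : l ≤ ⌊Real.log X ^ A⌋₊ := Nat.le_floor (hl.trans (pow_le_pow_left₀ (by linarith) hLX A))
  -- the finite sets
  have hfin : {x : ℕ | (a < x ∧ x ≤ b) ∧ x ≡ r [MOD l] ∧ x ∈ 𝒜}.Finite := (Set.finite_Ioc a b).subset fun x hx => hx.1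
  have h3 := h2 l (r % l) a b hl1 hlX (Nat.mod_lt _ hl1) hab (hb.trans (Nat.mul_le_mul_left _ hX1)) (fun i => ((ε i : ℤ) : ℝ))
    (fun i => by
      rcases hε i with e | e <;> rw [e]
      · left; norm_num
      · right; norm_num) hfin.toFinset (fun x => by
      rw [Set.Finite.mem_toFinset]
      rfl)
  have e1 : total 𝒜 l r a b = hfin.toFinset.card := Set.ncard_eq_toFinset_card _ hfin
  have e2 : occurrences 𝒜 v l r a b ε = (hfin.toFinset.filter fun x => ∀ i, li (x + v i) = ((ε i : ℤ) : ℝ)).card := by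
    unfold occurrences
    rw [← Set.ncard_coe_finset]
    congr 1
    ext x
    rw [mem_coe, mem_filter, Set.Finite.mem_toFinset]
    apply and_congr Iff.rfl
    apply forall_congr'
    intro i
    rw [li_liouville]
    exact Int.cast_inj.symm
  rw [e1, e2]
  refine h3.trans ?_
  have hLq0 : 0 < Real.log (q : ℝ) := by linarith
  have hLX0 : 0 < Real.log (X : ℝ) := by linarith
  rw [div_le_div_iff₀ (by positivity) (by positivity), pow_succ]
  have h4 : Real.log q ^ U ≤ Real.log X ^ U := pow_le_pow_left₀ (by linarith) hLX U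
  have h5 : (X : ℝ) ≤ 2 * q := by exact_mod_cast hX2
  have h6 : (X : ℝ) ≤ q * Real.log X := by nlinarith
  calc (X : ℝ) * Real.log q ^ U ≤ (q * Real.log X) * Real.log X ^ U := mul_le_mul h6 h4 (by positivity) (by positivity)
    _ = q * (Real.log X ^ U * Real.log X) := by ring

/-- **Sign patterns at positions near linear forms in good approximations.** -/
theorem result (𝒜 : Set ℕ) :
    (∀ k : ℕ, 1 ≤ k → ∀ᵐ α : Fin k → ℝ, ∀ (M : Matrix (Fin (k + 1)) (Fin (k + 1)) ℤ) (c : Fin (k + 1) → ℤ) (A B U W : ℕ),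
      M.det ≠ 0 → ∀ b : ℝ, {t | Near b (1 / k) α t ∧ ¬ Law 𝒜 M c A B U W t}.Finite) ∧
    ∀ᵐ ξ : ℝ, ∀ (M : Matrix (Fin 2) (Fin 2) ℤ) (c : Fin 2 → ℤ) (A B U W : ℕ), M.det ≠ 0 →
      ∀ᶠ n : ℕ in atTop, Law 𝒜 M c A B U W (conv ξ n) := by
  refine ⟨fun k hk => ?_, ?_⟩
  · have : Countable (Matrix (Fin (k + 1)) (Fin (k + 1)) ℤ) := inferInstanceAs (Countable (Fin (k + 1) → Fin (k + 1) → ℤ))
    have h : ∀ᵐ α : Fin k → ℝ, ∀ x : {x : Matrix (Fin (k + 1)) (Fin (k + 1)) ℤ × (Fin (k + 1) → ℤ) × ℕ × ℕ × ℕ × ℕ // x.1.det ≠ 0},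
        ∀ b : ℝ, {t | t ∈ {t | ¬ Law 𝒜 x.1.1 x.1.2.1 x.1.2.2.1 x.1.2.2.2.1 x.1.2.2.2.2.1 x.1.2.2.2.2.2 t} ∧
          Near b (1 / k) α t}.Finite := ae_all_iff.2 fun x => met 𝒜 hk x.1.1 x.2 x.1.2.1 _ _ _ _
    filter_upwards [h] with α hα M c A B U W hM b
    exact (hα ⟨⟨M, c, A, B, U, W⟩, hM⟩ b).subset fun t ht => ⟨ht.2, ht.1⟩
  · have : Countable (Matrix (Fin 2) (Fin 2) ℤ) := inferInstanceAs (Countable (Fin 2 → Fin 2 → ℤ))
    have h : ∀ᵐ ξ : ℝ, ∀ x : {x : Matrix (Fin 2) (Fin 2) ℤ × (Fin 2 → ℤ) × ℕ × ℕ × ℕ × ℕ // x.1.det ≠ 0}, ∀ᶠ n : ℕ in atTop,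
        conv ξ n ∉ {t | ¬ Law 𝒜 x.1.1 x.1.2.1 x.1.2.2.1 x.1.2.2.2.1 x.1.2.2.2.2.1 x.1.2.2.2.2.2 t} :=
      ae_all_iff.2 fun x => conv_not_mem (met 𝒜 le_rfl x.1.1 x.2 x.1.2.1 _ _ _ _)
    filter_upwards [h] with ξ hξ M c A B U W hM
    filter_upwards [hξ ⟨⟨M, c, A, B, U, W⟩, hM⟩] with n hn
    exact not_not.1 hn

end Pool.Agent.Results.MP_4fffd4_nt.ConvergentPositions
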