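import Pool.Agent.N699.PP.Main
import Pool.Agent.N699.GC.Tra
import Pool.Agent.N699.RP.Prim

/-!
# All the sign patterns of the Liouville function at positions from explicit sets of polylogarithmic size

For almost all the vectors `(v_1, ..., v_s)` of positions, each from an explicit set of `log ^ C N` integers at an arbitrary
place (and for all independent positions whose laws have a small Fourier transform off the major arcs), all the `2 ^ s` sign
patterns of `λ(x + κ v_1), ..., λ(x + κ v_s)` have the frequency `2 ^ (-s)`, with an error of at most `1 / log ^ U N`,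
simultaneously for all `κ ≤ log ^ A N`, for `x` in all the intervals up to `B N` and in all the progressions with moduli up to
`log ^ A N`. The number `s` of the positions is arbitrary.
-/

set_option autoImplicit false

namespace Pool.Agent.Results.MP_4fffd4_nt.ExplicitPositions

open Finset

/-- The Liouville function: `1` if the number of the prime factors, counted with multiplicity, is even, and `-1` otherwise. -/
def liouville (n : ℕ) : ℤ := (-1) ^ (n.primeFactorsList.length)

/-- The number of the integers `a < x ≤ b` with `x ≡ r (mod q)` and `λ(x + κ v_i) = ε_i` for all `i`. -/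
def occurrences {s : ℕ} (v : Fin s → ℕ) (κ q r a b : ℕ) (ε : Fin s → ℤ) : ℕ :=
  ((Ioc a b).filter fun x => x ≡ r [MOD q] ∧ ∀ i, liouville (x + κ * v i) = ε i).card

/-- The number of the integers `a < x ≤ b` with `x ≡ r (mod q)`. -/
def total (q r a b : ℕ) : ℕ := ((Ioc a b).filter fun x => x ≡ r [MOD q]).card

/-- Equidistribution of the patterns at the positions `v_i` and their small multiples: for all `1 ≤ κ ≤ K`, all moduli
`1 ≤ q ≤ K`, all residues `r`, all intervals `(a, b]` with `b ≤ B N` and all the sign patterns `ε` the number of the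
occurrences is `total / 2 ^ s`, with an error of at most `N / log ^ U N`. -/
def Equidistributed {s : ℕ} (B U N : ℕ) (K : ℝ) (v : Fin s → ℕ) : Prop :=
  ∀ κ q r a b : ℕ, 1 ≤ κ → (κ : ℝ) ≤ K → 1 ≤ q → (q : ℝ) ≤ K → a ≤ b → b ≤ B * N →
    ∀ ε : Fin s → ℤ, (∀ i, ε i = 1 ∨ ε i = -1) →
      |(occurrences v κ q r a b ε : ℝ) - (total q r a b : ℝ) / 2 ^ s| ≤ N / Real.log N ^ U

/-- The major arcs: the real numbers at a distance of at most `log ^ E N / N` from a fraction with a denominator of at most
`log ^ E N`. -/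
def Major (E N : ℕ) (α : ℝ) : Prop :=
  ∃ q : ℕ, 1 ≤ q ∧ (q : ℝ) ≤ Real.log N ^ E ∧ ∃ c : ℤ, |α - c / q| ≤ Real.log N ^ E / N

/-- `p` is a probability measure on the integers `0, ..., B N`, and its Fourier transform `∑ p v e(v α)` is at most
`1 / log ^ W N` in absolute value off the major arcs. -/
structure SmallOff (B E W N : ℕ) (p : ℕ → ℝ) : Prop where
  nonneg : ∀ v ∈ range (B * N + 1), 0 ≤ p v
  sum : ∑ v ∈ range (B * N + 1), p v = 1
  small : ∀ α : ℝ, ¬ Major E N α →
    ‖∑ v ∈ range (B * N + 1), (p v : ℂ) * Complex.exp (2 * Real.pi * Complex.I * ((v * α : ℝ) : ℂ))‖ ≤ 1 / Real.log N ^ W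

/-- The triples `(b, u, i)`, where `b ≤ Q` is a prime, `0 ≤ u < b` and `0 ≤ i < Q`. -/
def triples (Q : ℕ) : Finset (ℕ × ℕ × ℕ) := (range (Q + 1) ×ˢ range Q ×ˢ range Q).filter fun t => t.1.Prime ∧ t.2.1 < t.1

/-- The integer `u ⌊M / b⌋ + i` of the triple `(b, u, i)`: it is near to the rational multiple `(u / b) M` of `M`. -/
def point (M : ℕ) (t : ℕ × ℕ × ℕ) : ℕ := t.2.1 * (M / t.1) + t.2.2

lemma liouville_li (n : ℕ) : Pool.Agent.N699.PP.li n = ((liouville n : ℤ) : ℝ) := by
  unfold Pool.Agent.N699.PP.li liouville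
  push_cast
  rfl

lemma bridge {s B A U N K : ℕ} (hK : (K : ℝ) = ⌊Real.log N ^ A⌋₊) (v : Fin s → ℕ)
    (h : Pool.Agent.N699.PP.Gp U N K (B * K * N) v) (hK1 : 1 ≤ K) : Equidistributed B U N (Real.log N ^ A) v := by
  intro κ q r a b hκ1 hκ hq1 hq hab hb ε hε
  have hKn : K = ⌊Real.log N ^ A⌋₊ := by exact_mod_cast hK
  have hκK : κ ≤ K := by
    rw [hKn]
    exact Nat.le_floor hκ
  have hqK : q ≤ K := by
    rw [hKn]
    exact Nat.le_floor hq
  have h1 := h κ q (r % q) a b hκ1 hκK hq1 hqK (Nat.mod_lt _ hq1) hab (hb.trans (by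
    calc B * N = B * 1 * N := by ring
      _ ≤ B * K * N := Nat.mul_le_mul_right _ (Nat.mul_le_mul_left _ hK1))) (fun i => ((ε i : ℤ) : ℝ)) (fun i => by
    rcases hε i with e | e <;> rw [e]
    · left; norm_num
    · right; norm_num)
  have e1 : (((Ioc a b).filter fun x => x % q = r % q).filter fun x => ∀ i, Pool.Agent.N699.PP.li (x + κ * v i) = ((ε i : ℤ) : ℝ)) =
      (Ioc a b).filter fun x => x ≡ r [MOD q] ∧ ∀ i, liouville (x + κ * v i) = ε i := by
    rw [filter_filter]
    apply filter_congr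
    intro x _
    unfold Nat.ModEq
    apply and_congr Iff.rfl
    apply forall_congr'
    intro i
    rw [liouville_li]
    exact Int.cast_inj
  rw [e1] at h1
  exact h1

open Classical in
/-- Let `A`, `B ≥ 1` and `U` be fixed.

(1) There is a `W` such that for every `E`, all large `N` and ALL `s`: if `v_1, ..., v_s` are independent random integers
whose laws are any probability measures on `0, ..., B N` with a Fourier transform of at most `1 / log ^ W N` off the major
arcs, then with a probability of at least `1 - 1 / log ^ U N` all the `2 ^ s` sign patterns are equidistributed at the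
positions `v_1, ..., v_s`, with an error of at most `N / log ^ U N` in all the intervals in `[0, B N]`, for all the moduli and
all the multiples `κ` up to `log ^ A N`.

(2) There is a `C` such that for all large `N`, ALL `s`, all `Q i` with `log ^ C N ≤ Q i ≤ N`, all `M i` with
`N / B ≤ M i ≤ B N` and all `c i ≤ B N` this holds for the positions `v i = c i + u ⌊M i / b⌋ + k` (`b ≤ Q i` prime,
`0 ≤ u < b`, `0 ≤ k < Q i`), with the exception of a proportion of at most `1 / log ^ U N` of the vectors of triples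
`(b, u, k)`. (For `Q i = log ^ C N` there are at most `log ^ (3 C) N` triples.)

(3) If `2 ^ s ≤ log ^ A N` and `A < U`, then every sign pattern occurs at the equidistributed positions of (1) and (2) for some
`1 ≤ x ≤ N`, so all the `2 ^ s` patterns occur. -/
theorem result (A B U : ℕ) (hB : 1 ≤ B) :
    (∃ W : ℕ, ∀ E : ℕ, ∃ N₀ : ℕ, ∀ N : ℕ, N₀ ≤ N → ∀ (s : ℕ) (p : Fin s → ℕ → ℝ), (∀ i, SmallOff B E W N (p i)) →
      ∑ v ∈ Fintype.piFinset (fun _ : Fin s => range (B * N + 1)),
        (if Equidistributed B U N (Real.log N ^ A) v then 0 else ∏ i, p i (v i)) ≤ 1 / Real.log N ^ U) ∧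
    (∃ C N₀ : ℕ, ∀ N : ℕ, N₀ ≤ N → ∀ (s : ℕ) (Q M c : Fin s → ℕ),
      (∀ i, Real.log N ^ C ≤ Q i ∧ Q i ≤ N ∧ N ≤ B * M i ∧ M i ≤ B * N ∧ c i ≤ B * N) →
        (((Fintype.piFinset fun i => triples (Q i)).filter fun τ =>
          ¬ Equidistributed B U N (Real.log N ^ A) (fun i => c i + point (M i) (τ i))).card : ℝ) ≤
        1 / Real.log N ^ U * ((Fintype.piFinset fun i => triples (Q i)).card : ℝ)) ∧
    (A < U → ∃ N₀ : ℕ, ∀ N : ℕ, N₀ ≤ N → ∀ s : ℕ, (2 : ℝ) ^ s ≤ Real.log N ^ A → ∀ v : Fin s → ℕ,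
      Equidistributed B U N (Real.log N ^ A) v → ∀ ε : Fin s → ℤ, (∀ i, ε i = 1 ∨ ε i = -1) →
        ∃ x : ℕ, 1 ≤ x ∧ x ≤ N ∧ ∀ i, liouville (x + v i) = ε i) := by
  refine ⟨?_, ?_, ?_⟩
  · refine ⟨2 * (4 * A + 3 * U + 4) + 2 * A + 1, fun E => ?_⟩
    obtain ⟨N1, h1⟩ := Pool.Agent.N699.PP.pattern_law A B B U hB hB E
    refine ⟨N1 + 3, fun N hN s p hp => ?_⟩
    have hL1 : 1 ≤ Real.log N := by
      rw [Real.le_log_iff_exp_le (by exact_mod_cast (by omega : 0 < N))]
      have h3 : (3 : ℝ) ≤ N := by exact_mod_cast (by omega : 3 ≤ N)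
      linarith [Real.exp_one_lt_d9]
    have hK1 : 1 ≤ ⌊Real.log N ^ A⌋₊ := Nat.le_floor (by rw [Nat.cast_one]; exact one_le_pow₀ hL1)
    have h2 := h1 N (by omega) s (fun _ => range (B * N + 1)) p (fun i => ⟨(hp i).nonneg, (hp i).sum, fun v hv => by
      rw [mem_range] at hv
      omega, (hp i).small⟩) ⌊Real.log N ^ A⌋₊ hK1 (Nat.floor_le (by positivity))
    refine le_trans (sum_le_sum fun v hv => ?_) h2
    by_cases hg : Pool.Agent.N699.PP.Gp U N ⌊Real.log N ^ A⌋₊ (B * ⌊Real.log N ^ A⌋₊ * N) v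
    · rw [if_pos (bridge rfl v hg hK1), if_pos hg]
    · rw [if_neg hg]
      split_ifs
      · exact prod_nonneg fun i _ => (hp i).nonneg _ (Fintype.mem_piFinset.1 hv i)
      · exact le_rfl
  · obtain ⟨W, hW⟩ : ∃ W, W = 2 * (4 * A + 3 * U + 4) + 2 * A + 1 := ⟨_, rfl⟩
    obtain ⟨N1, h1⟩ := Pool.Agent.N699.PP.pattern_law A (B + 1 + B) B U (by omega) hB (W + 1)
    obtain ⟨N2, h2⟩ := Pool.Agent.N699.RP.prime_law B W hB
    refine ⟨2 * W + 5, N1 + N2 + 3, fun N hN s Q M c hQM => ?_⟩
    have hL1 : 1 ≤ Real.log N := by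
      rw [Real.le_log_iff_exp_le (by exact_mod_cast (by omega : 0 < N))]
      have h3 : (3 : ℝ) ≤ N := by exact_mod_cast (by omega : 3 ≤ N)
      linarith [Real.exp_one_lt_d9]
    have hK1 : 1 ≤ ⌊Real.log N ^ A⌋₊ := Nat.le_floor (by rw [Nat.cast_one]; exact one_le_pow₀ hL1)
    have h3 := h1 N (by omega) s
      (fun i => (Pool.Agent.N699.RP.pts (Q i)).image fun s => c i + Pool.Agent.N699.RP.pt (M i) s)
      (fun i => Pool.Agent.N699.RP.push (Pool.Agent.N699.RP.pts (Q i)) (fun _ => 1 / ((Pool.Agent.N699.RP.pts (Q i)).card : ℝ))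
        fun s => c i + Pool.Agent.N699.RP.pt (M i) s)
      (fun i => by
        rw [← hW]
        exact Pool.Agent.N699.GC.lw_trans (B + 1) B (W + 1) W N (Pool.Agent.N699.RP.pts (Q i))
          (fun _ => 1 / ((Pool.Agent.N699.RP.pts (Q i)).card : ℝ)) (fun _ _ => by positivity) (Pool.Agent.N699.RP.pt (M i)) (c i)
          (hQM i).2.2.2.2 (h2 N (by omega) (M i) (hQM i).2.2.1 (hQM i).2.2.2.1 (Q i) (hQM i).1 (hQM i).2.1))
      ⌊Real.log N ^ A⌋₊ hK1 (Nat.floor_le (by positivity))
    have e := Pool.Agent.N699.RP.push_tuple (fun i => Pool.Agent.N699.RP.pts (Q i))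
        (fun i _ => 1 / ((Pool.Agent.N699.RP.pts (Q i)).card : ℝ)) (fun i s => c i + Pool.Agent.N699.RP.pt (M i) s)
        (fun v => ¬ Pool.Agent.N699.PP.Gp U N ⌊Real.log N ^ A⌋₊ (B * ⌊Real.log N ^ A⌋₊ * N) v)
    have h' : ∑ τ ∈ Fintype.piFinset (fun i => triples (Q i)),
        (if ¬ Equidistributed B U N (Real.log N ^ A) (fun i => c i + point (M i) (τ i)) then
        ∏ i, 1 / ((triples (Q i)).card : ℝ) else 0) ≤ 1 / Real.log N ^ U := by
      refine le_trans (sum_le_sum fun τ _ => ?_) ((le_of_eq e.symm).trans (le_trans (le_of_eq ?_) h3))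
      · by_cases hg : Pool.Agent.N699.PP.Gp U N ⌊Real.log N ^ A⌋₊ (B * ⌊Real.log N ^ A⌋₊ * N)
            (fun i => c i + Pool.Agent.N699.RP.pt (M i) (τ i))
        · have h4 : Equidistributed B U N (Real.log N ^ A) (fun i => c i + point (M i) (τ i)) := bridge rfl _ hg hK1
          rw [if_neg (not_not.2 h4), if_neg (not_not.2 hg)]
        · rw [if_pos hg]
          split_ifs
          · exact prod_nonneg fun i _ => by positivity
          · exact le_rfl
      · apply sum_congr rfl
        intro v _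
        by_cases hv : Pool.Agent.N699.PP.Gp U N ⌊Real.log N ^ A⌋₊ (B * ⌊Real.log N ^ A⌋₊ * N) v
        · rw [if_neg (not_not.2 hv), if_pos hv]
        · rw [if_pos hv, if_neg hv]
    rw [← sum_filter, sum_const, nsmul_eq_mul, prod_div_distrib, prod_const_one, mul_one_div] at h'
    have hcard : ((Fintype.piFinset fun i => triples (Q i)).card : ℝ) = ∏ i, ((triples (Q i)).card : ℝ) := by
      rw [Fintype.card_piFinset]
      push_cast
      rfl
    rw [← hcard] at h'
    rcases Nat.eq_zero_or_pos (Fintype.piFinset fun i => triples (Q i)).card with h0 | h0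
    · have h4 : ((Fintype.piFinset fun i => triples (Q i)).filter fun τ =>
          ¬ Equidistributed B U N (Real.log N ^ A) (fun i => c i + point (M i) (τ i))).card = 0 := by
        have := card_filter_le (Fintype.piFinset fun i => triples (Q i)) (fun τ =>
          ¬ Equidistributed B U N (Real.log N ^ A) (fun i => c i + point (M i) (τ i)))
        omega
      rw [h4, h0, Nat.cast_zero, mul_zero]
    · have h0r : (0 : ℝ) < ((Fintype.piFinset fun i => triples (Q i)).card : ℝ) := by exact_mod_cast h0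
      rw [div_le_iff₀ h0r] at h'
      exact h'
  · intro hAU
    refine ⟨9, fun N hN s hs v hv ε hε => ?_⟩
    have hL2 : 2 < Real.log N := by
      rw [Real.lt_log_iff_exp_lt (by exact_mod_cast (by omega : 0 < N))]
      have h3 : (9 : ℝ) ≤ N := by exact_mod_cast hN
      have h4 : Real.exp 2 = Real.exp 1 ^ 2 := by rw [← Real.exp_nat_mul]; norm_num
      have h5 := Real.exp_one_lt_d9
      rw [h4]
      nlinarith [Real.exp_pos 1]
    have hL0 : 0 < Real.log N := by linarith
    have hN0 : (0 : ℝ) < N := by exact_mod_cast (by omega : 0 < N)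
    have h1 := hv 1 1 0 0 N le_rfl (by rw [Nat.cast_one]; exact one_le_pow₀ (by linarith)) le_rfl
      (by rw [Nat.cast_one]; exact one_le_pow₀ (by linarith)) (Nat.zero_le _) (Nat.le_mul_of_pos_left _ hB) ε hε
    have h2 : total 1 0 0 N = N := by
      unfold total
      rw [filter_true_of_mem (fun x _ => Nat.modEq_one), Nat.card_Ioc, Nat.sub_zero]
    rw [h2] at h1
    by_contra hcon
    push Not at hcon
    have h3 : occurrences v 1 1 0 0 N ε = 0 := by
      unfold occurrences
      rw [card_eq_zero, filter_eq_empty_iff]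
      intro x hx hx2
      rw [mem_Ioc] at hx
      obtain ⟨i, hi⟩ := hcon x (by omega) hx.2
      apply hi
      have := hx2.2 i
      rwa [one_mul] at this
    rw [h3, Nat.cast_zero, zero_sub, abs_neg, abs_of_nonneg (by positivity), div_le_div_iff₀ (by positivity) (by positivity)] at h1
    have h4 : Real.log N ^ U ≤ 2 ^ s := le_of_mul_le_mul_left h1 hN0
    have h5 : Real.log N ^ A < Real.log N ^ U := pow_lt_pow_right₀ (by linarith) hAU
    linarith

end Pool.Agent.Results.MP_4fffd4_nt.ExplicitPositions
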