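import Pool.Agent.N318.BC.F

/-!
# Sign patterns of the modifications of the Liouville function at few primes

Let `g : ℕ → {1, -1}` be any function, for instance the Liouville function, let `n ≥ 1`, let `Q` be
a finite set of primes `> n` and let `W` be the product of the `q ^ 2`, `q ∈ Q`. For `S ⊆ Q` let
`twist g S` be the function `g m * ∏_{q ∈ S} (-1) ^ (v_q m)`; if `g` is completely multiplicative,
then `twist g S` is the completely multiplicative function with the value `- g q` at the primes
`q ∈ S` and `g p` at all other primes.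

* With `K (n + 1)` primes, `K ≥ 2`, all but at most `4 / (n + 1) ^ (K - 1)` of the pairs (`S`,
  pattern of length `n`) are such that the pattern occurs in `twist g S` with upper density at least
  `1 / (2 ^ n W)`; and for each single `x` the same holds for the frequency below `x`. So if
  `(n + 1) ^ (K - 1)` is much larger than `2 ^ n`, which allows sets of `O (n ^ 2 / log n)` primes,
  then almost every `twist g S` has all the patterns of length `n`.
* With `n + 1` primes the number of patterns of length `n` which occur in `twist g S` with upper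
  density at least `1 / (2 ^ n W)` is on average over `S` at least `2 ^ (n + 1) / (n + 2)`.

The proof is a second moment over the ways to place the primes of `Q` at the positions of the
pattern by congruences modulo the `q ^ 2`: in `K` groups of `n + 1` primes each prime gets a position
or no position, bijectively.
-/

set_option autoImplicit false

namespace Pool.Agent.Results.MP_4fffd4_nt.FewPrimeModifications

open Finset

/-- `g` with its sign changed at the primes of `S` -/
def twist (g : ℕ → ℤˣ) (S : Finset ℕ) (m : ℕ) : ℤˣ := g m * ∏ q ∈ S, (-1) ^ padicValNat q m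

/-- the number of `m < x` with `f (m + j + 1) = t j` for all `j < n` -/
def cnt {n : ℕ} (f : ℕ → ℤˣ) (t : Fin n → ℤˣ) (x : ℕ) : ℕ :=
  ((range x).filter (fun m => ∀ j : Fin n, f (m + j + 1) = t j)).card

/-- for infinitely many `x` the pattern `t` occurs at least `⌊x / W⌋ / 2 ^ n` times below `x` -/
def Freq {n : ℕ} (f : ℕ → ℤˣ) (t : Fin n → ℤˣ) (W : ℕ) : Prop :=
  ∀ N : ℕ, ∃ x, N ≤ x ∧ x / W ≤ 2 ^ n * cnt f t x

/-- the pairs (subset of `Q`, pattern of length `n`) -/
def pairs (n : ℕ) (Q : Finset ℕ) : Finset (Finset ℕ × (Fin n → ℤˣ)) := Q.powerset ×ˢ univ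

open Classical in
theorem result (g : ℕ → ℤˣ) (n : ℕ) (Q : Finset ℕ) (hq : ∀ q ∈ Q, q.Prime ∧ n < q) :
    (∀ K : ℕ, 1 ≤ n → 2 ≤ K → Q.card = K * (n + 1) →
      (∀ x : ℕ, ((pairs n Q).filter (fun p =>
          2 ^ n * cnt (twist g p.1) p.2 x < x / ∏ q ∈ Q, q ^ 2)).card * (n + 1) ^ (K - 1)
          ≤ 4 * (2 ^ Q.card * 2 ^ n)) ∧
      ((pairs n Q).filter (fun p => ¬ Freq (twist g p.1) p.2 (∏ q ∈ Q, q ^ 2))).card
          * (n + 1) ^ (K - 1) ≤ 4 * (2 ^ Q.card * 2 ^ n) ∧
      (Q.powerset.filter (fun S =>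
          ∃ t : Fin n → ℤˣ, ¬ Freq (twist g S) t (∏ q ∈ Q, q ^ 2))).card
          * (n + 1) ^ (K - 1) ≤ 4 * (2 ^ Q.card * 2 ^ n)) ∧
    (Q.card = n + 1 →
      (∀ x : ℕ, 2 ^ Q.card * 2 ^ (n + 1) ≤ (n + 2) * ((pairs n Q).filter (fun p =>
          x / (∏ q ∈ Q, q ^ 2) ≤ 2 ^ n * cnt (twist g p.1) p.2 x)).card) ∧
      2 ^ Q.card * 2 ^ (n + 1) ≤ (n + 2) * ((pairs n Q).filter (fun p =>
          Freq (twist g p.1) p.2 (∏ q ∈ Q, q ^ 2))).card) := by
  refine ⟨fun K hn hK hQ => ⟨fun x => ?_, ?_, ?_⟩, fun hQ => ⟨fun x => ?_, ?_⟩⟩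
  · exact Pool.Agent.N318.BC.main_exc hn hK Q hQ hq g x
  · exact Pool.Agent.N318.BC.main_freq hn hK Q hQ hq g
  · exact Pool.Agent.N318.BC.main_sets hn hK Q hQ hq g
  · exact Pool.Agent.N318.BC.main_one Q hQ hq g x
  · exact Pool.Agent.N318.BC.main_one_freq Q hQ hq g

end Pool.Agent.Results.MP_4fffd4_nt.FewPrimeModifications
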