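import Mathlib
import Pool.Agent.N790.LP.Pat

/-!
# At every scale, along almost all dilates, at least `2 k` sign patterns of length `k` have positive density

`λ` is the Liouville function. The block complexity `P_λ(k)` counts the sign patterns of length `k` among the vectors
`λ(n), λ(n + 1), ..., λ(n + k - 1)`. Here `n + j` is replaced by `n + j d`, `0 ≤ j < k`, for almost all `d ≤ D`, where
`D` may grow as slowly as one likes compared with `n ≤ x`.

(1) For every `k ≥ 1` and `ε > 0` there is `K` such that for ALL `D ≥ K` and `x ≥ K D` (every scale `x`, no logarithmic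
averages), for all but at most `ε D` of the `d ≤ D`, at least `2 k` sign patterns of length `k` occur among
`λ(n), λ(n + d), ..., λ(n + (k - 1) d)`, each of them for at least `x / (4 k 2 ^ k)` of the `n ≤ x`.

(2) For `k = 4` all sixteen patterns occur, each of them for at least `(1 / 32 - ε) x` of the `n ≤ x`.

Proof of (1): by helper675's theorem on three point correlations along almost all dilates at every scale
(`Pool.Agent.N675.A3`; with helpers 123 and 368) the `2 k` functions `s_i`, `s_0 s_i`, `0 ≤ i < k`, of the pattern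
`s` are almost orthogonal for almost all `d`, and functions supported on fewer than `2 k` patterns span a space of
smaller dimension (Rao's bound for orthogonal arrays of strength 3). (2) is helper675's `four_patterns`: the four point
correlation is at most `1 / 2` since products of two consecutive ones are two point correlations.
-/

set_option autoImplicit false

open Finset

namespace Pool.Agent.Results.MP_4fffd4_nt.PatternsAlongDilates

/-- the number of the `n ≤ x` for which the signs `λ(n + i d)`, `0 ≤ i < k`, are `s i` -/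
def occ (k d x : ℕ) (s : Fin k → ℤˣ) : ℕ :=
  ((Icc 1 x).filter (fun n => ∀ i : Fin k, (-1 : ℤˣ) ^ ArithmeticFunction.cardFactors (n + (i : ℕ) * d) = s i)).card

open Classical in
theorem result :
    (∀ k : ℕ, 1 ≤ k → ∀ ε : ℝ, 0 < ε → ∃ K : ℕ, ∀ D x : ℕ, K ≤ D → K * D ≤ x →
      ∃ E : Finset ℕ, (E.card : ℝ) ≤ ε * D ∧ ∀ d ∈ Icc 1 D, d ∉ E →
        2 * k ≤ (univ.filter (fun s : Fin k → ℤˣ => (x : ℝ) / (4 * k * 2 ^ k) ≤ occ k d x s)).card) ∧
    (∀ ε : ℝ, 0 < ε → ∃ K : ℕ, ∀ D x : ℕ, K ≤ D → K * D ≤ x →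
      ∃ E : Finset ℕ, (E.card : ℝ) ≤ ε * D ∧ ∀ d ∈ Icc 1 D, d ∉ E →
        ∀ s : Fin 4 → ℤˣ, (1 / 32 - ε) * x ≤ occ 4 d x s) := by
  classical
  refine ⟨fun k hk ε hε => ?_, fun ε hε => ?_⟩
  · obtain ⟨k, rfl⟩ : ∃ k', k = k' + 1 := ⟨k - 1, by omega⟩
    obtain ⟨K, -, h⟩ := Pool.Agent.N790.LP.patterns k ε hε
    refine ⟨K, fun D x hD hx => ⟨_, h D x hD hx, fun d hd hdE => ?_⟩⟩
    rw [mem_filter, not_and] at hdE
    have h1 := not_lt.1 (hdE hd)
    refine h1.trans (card_le_card ?_)
    intro s hs
    rw [mem_filter] at hs ⊢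
    refine ⟨mem_univ _, ?_⟩
    have e : (((Icc 1 x).filter (fun n => Pool.Agent.N790.LP.pat k d n = s)).card : ℝ) = occ (k + 1) d x s := by
      unfold occ
      congr 2
      ext n
      rw [mem_filter, mem_filter]
      refine and_congr_right fun _ => ?_
      constructor
      · intro h i
        rw [← h]
        rfl
      · intro h
        funext i
        exact h i
    rw [← e]
    refine le_trans (le_of_eq ?_) hs.2
    push_cast
    ring
  · obtain ⟨K, -, h⟩ := Pool.Agent.N675.A3.four_patterns Pool.Agent.N123.A3.t1 Pool.Agent.N368.A3.t2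
      Pool.Agent.N675.A3.t3 ε hε
    refine ⟨K, fun D x hD hx => ⟨_, h D x hD hx, fun d hd hdE s => ?_⟩⟩
    by_contra hcon
    push Not at hcon
    have hs' : ∀ u : ℤˣ, (((u : ℤ) : ℝ) = 1 ∨ ((u : ℤ) : ℝ) = -1) := by
      intro u
      rcases Int.units_eq_one_or u with h | h <;> rw [h] <;> norm_num
    refine hdE (mem_filter.mpr ⟨hd, ((s 0 : ℤ) : ℝ), ((s 1 : ℤ) : ℝ), ((s 2 : ℤ) : ℝ), ((s 3 : ℤ) : ℝ),
      hs' _, hs' _, hs' _, hs' _, ?_⟩)
    refine lt_of_le_of_lt ?_ hcon
    unfold occ
    refine Nat.cast_le.mpr (card_le_card ?_)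
    intro n hn
    rw [mem_filter] at hn ⊢
    have hl : ∀ (m : ℕ) (u : ℤˣ), Pool.Agent.N675.A3.lf m = ((u : ℤ) : ℝ) →
        (-1 : ℤˣ) ^ ArithmeticFunction.cardFactors m = u := by
      intro m u h
      apply Units.ext
      have h2 : (((((-1 : ℤˣ) ^ ArithmeticFunction.cardFactors m : ℤˣ) : ℤ) : ℝ)) = ((u : ℤ) : ℝ) := by
        rw [← h]
        unfold Pool.Agent.N675.A3.lf
        push_cast
        rfl
      exact_mod_cast h2
    refine ⟨hn.1, fun i => hl _ _ ?_⟩
    fin_cases i
    · simpa using hn.2.1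
    · simpa using hn.2.2.1
    · simpa using hn.2.2.2.1
    · simpa using hn.2.2.2.2

end Pool.Agent.Results.MP_4fffd4_nt.PatternsAlongDilates
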